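import Pool.Agent.H44T.BR.Soc

/-!
# Semisimplicity of the Galois action: bounded defects vanish

Let `k` be a finitely generated field of characteristic zero, `G` its Galois group and `H^i(X)` the
`ℓ`-adic cohomology of `X ⊗ k'`, `k'` an algebraic closure. Fix the dimension `n` and the degree `i`
(for example `n = i = 2`: the second cohomology of surfaces, or `n = i = 3`).

**Theorem.**

(1) The representations `H^i(X)` of `G` are semisimple for all smooth projective varieties `X` of
dimension `n` over `k` if and only if there is ONE number `d`, for example `d = 10 ^ 100`, such that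
for all these `X` the representation `H^i(X)` has a semisimple subrepresentation of codimension at
most `d`.

(2) For one polarized variety `(S, D)` of dimension `n`: the representation `H^i(S)` is semisimple if,
for some `N`, some smooth complete intersection `V ⊆ S^N` of dimension `n` of divisors in multiples
of the class `D + ... + D` is such that `H^i(V)` has a semisimple subrepresentation of codimension `d`
with `d dim H(S) < N`.

So if `H^i(X)` is not semisimple for one variety of dimension `n`, then there are varieties of the
same dimension `n` over the same field such that every semisimple subrepresentation of their `H^i`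
has codimension at least `d`, for every `d`.

Proof. Let `V ⊆ S^N` be a smooth complete intersection of dimension `n = dim S` of divisors in multiples
of the class `ξ + ... + ξ`, with the projections `p_l : V → S`. If `x` is orthogonal to the powers of
`ξ` then `p_{m*} p_l^* x = 0` for `m ≠ l` and `p_{l*} p_l^* x = κ x`. If the socle `E` of `H^i(V)` has
codimension at most `d`, with a complement `M` (not assumed stable), and `N > d dim H(S)`, then there
is a nontrivial relation `∑ b_l p_{l*} = 0` on `M`, and `b_j κ x = ∑ b_l p_{l*} (p_j^* x)` is in the
image of `E`, so it is in the socle of `H^i(S)`. The powers of `ξ` span stable lines.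
-/

universe u v

namespace Pool.Agent.Results.MP_b4801b_ag.BoundedSocleDefects

open Pool.Agent.H914 Pool.Agent.H914.VarClass Pool.Agent.H914.VarClass.Obj
  Pool.Agent.H914.WeilCohomology Pool.Agent.H44T.BR

/-- **The representations `H^i(X)` are semisimple for all varieties of dimension `n` if they are
semisimple up to errors of bounded dimension.** -/
theorem result {k : Type u} [Field k] {𝒱 : VarClass k} {ops : CycleOps 𝒱}
    (W : WeilCohomology.{u, v} ops) {G : Type*} [Group G]
    (ρ : ∀ X : 𝒱.Obj, Representation W.K G (W.H X)) (χ : G →* W.Kˣ)
    (hG : IsGaloisAction W ρ χ)
    (Pol : ∀ X : 𝒱.Obj, X.Cycles → Prop) (n i : ℕ) (hP : HasPowers W Pol n) :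
    (GalSemisimple W ρ Pol n i ↔ ∃ d, GalSemisimpleUpTo W ρ Pol n i d) ∧
    (∀ (S : 𝒱.Obj) (D : S.Cycles), S.dim = n → Pol S D → HasGoodGalPower W ρ S D i →
      IsSemisimpleOn (ρ S) (W.gr S i)) :=
  ⟨galSemisimple_iff hG hP i, fun _ _ hS hSD h => galSemisimple_of_power hG hP i hS hSD h⟩

end Pool.Agent.Results.MP_b4801b_ag.BoundedSocleDefects
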