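import Pool.Agent.V11106.SH.Along

/-!
# Semisimplicity of `H^i(X)` from large semisimple subrepresentations for the products `X × T`

Let `W` be a Weil cohomology theory (coefficients `K`) on a class of varieties closed under
products, with an action of `Γ` on the cohomology algebras of all varieties, compatible with
pull-backs, which acts on the classes of cycles of codimension `j` by `χ ^ j` (the Galois group of
the base field acting on the `ℓ`-adic cohomology). Assume that the class contains, for every `N`, a
surface with algebraic cohomology and `N` independent divisor classes (a blow-up of the projective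
plane in `N - 1` rational points).

**One variety.** Let `X` be a variety. If the representations `H^(i + 2)(X × T)`, for surfaces `T`,
contain semisimple subrepresentations of codimension `o(b)`, where `b` is the Betti number
`b_(i + 2)(X × T)`, then `H^i(X)` is semisimple.

**All varieties.** Hence semisimplicity for all varieties and degrees is equivalent to
semisimple subrepresentations of `H^(i + 2)(X × T)` of bounded codimension (for each `X` and `i`, and
all surfaces `T`), and to semisimple subrepresentations of codimension `o(b)`.
-/

open CategoryTheory AlgebraicGeometry

universe u v w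

namespace Pool.Agent.Results.MP_b4801b_ag.SublinearDefects

open Pool.Agent.H914 VarClass Obj WeilCohomology Pool.Agent.V11106.LB Pool.Agent.V11106.SH

variable {k : Type u} [Field k] {𝒱 : VarClass k} {ops : CycleOps 𝒱}

theorem result (W : WeilCohomology.{u, v} ops) (hT : HasRationalSurfaces W) {Γ : Type w}
    (G : GaloisLike W Γ) :
    (∀ (X : 𝒱.Obj) (i : ℕ), SocleSublinearAlong G X i → SemisimpleSub (G.ρ X) (W.gr X i)) ∧
    [∀ (X : 𝒱.Obj) (i : ℕ), SemisimpleSub (G.ρ X) (W.gr X i),
      ∀ (X : 𝒱.Obj) (i : ℕ), SocleBoundedAlong G X i,
      ∀ (X : 𝒱.Obj) (i : ℕ), SocleSublinearAlong G X i].TFAE :=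
  semisimpleAlong_main hT G

end Pool.Agent.Results.MP_b4801b_ag.SublinearDefects
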